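import Mathlib

set_option autoImplicit false

open Filter

namespace Pool.Agent.Results.MP_369bda_lc.ChromaticGap

universe u

/-- A game graph with edges coloured by `S`: vertices `V`, edges `E v c v'` (an edge from `v` to
`v'` of colour `c`), the set `eve` of vertices owned by Eve (Adam owns the others), an initial
vertex, and every vertex has an outgoing edge.  The graph may be infinite. -/
structure Game (S : Type) where
  V : Type u
  E : V → S → V → Prop
  eve : V → Prop
  init : V
  total : ∀ v, ∃ c x, E v c x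

variable {S : Type}

/-- `p` and `w` are the vertices and the colours of an infinite play from the initial vertex. -/
structure IsPlay (G : Game.{u} S) (p : ℕ → G.V) (w : ℕ → S) : Prop where
  start : p 0 = G.init
  step : ∀ i, G.E (p i) (w i) (p (i + 1))

/-- The first `i` moves of a play. -/
def hist {V : Type u} (p : ℕ → V) (w : ℕ → S) (i : ℕ) : List (V × S) :=
  (List.range i).map fun j => (p j, w j)

/-- Eve has a winning strategy (with unrestricted memory: a function of the whole history that
returns an outgoing edge) in the game `G` with objective `W`. -/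
def EveWins (G : Game.{u} S) (W : Set (ℕ → S)) : Prop :=
  ∃ σ : List (G.V × S) → G.V → S × G.V,
    (∀ h v, G.eve v → G.E v (σ h v).1 (σ h v).2) ∧
    ∀ (p : ℕ → G.V) (w : ℕ → S), IsPlay G p w →
      (∀ i, G.eve (p i) → (w i, p (i + 1)) = σ (hist p w i) (p i)) → w ∈ W

/-- The memory state reached after the first `i` colours of `w`. -/
def mem {M : Type} (μ : M → S → M) (m0 : M) (w : ℕ → S) : ℕ → M
  | 0 => m0
  | i + 1 => μ (mem μ m0 w i) (w i)

/-- Eve has a winning chromatic strategy whose memory states are `M`, with initial state `m0` and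
update function `μ : M × S → M`. -/
def WinsWith {M : Type} (G : Game.{u} S) (W : Set (ℕ → S)) (m0 : M) (μ : M → S → M) : Prop :=
  ∃ f : G.V → M → S × G.V,
    (∀ v m, G.eve v → G.E v (f v m).1 (f v m).2) ∧
    ∀ (p : ℕ → G.V) (w : ℕ → S), IsPlay G p w →
      (∀ i, G.eve (p i) → (w i, p (i + 1)) = f (p i) (mem μ m0 w i)) → w ∈ W

/-- Eve has a winning chromatic strategy with `k` memory states. -/
def WinsChromatic (G : Game.{u} S) (W : Set (ℕ → S)) (k : ℕ) : Prop :=
  ∃ (m0 : Fin k) (μ : Fin k → S → Fin k), WinsWith G W m0 μ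

/-- `k` is the chromatic memory of `W` over the class `C` of games. -/
def IsChromaticMemory (C : Game.{u} S → Prop) (W : Set (ℕ → S)) (k : ℕ) : Prop :=
  IsLeast {k : ℕ | ∀ G : Game.{u} S, C G → EveWins G W → WinsChromatic G W k} k

/-- One-player games: Eve owns every vertex. -/
def OnePlayer (G : Game.{u} S) : Prop := ∀ v, G.eve v

/-- Arbitrary games. -/
def Arbitrary (_ : Game.{u} S) : Prop := True

/-- The run of a deterministic automaton. -/
def run {Q : Type} (δ : Q → S → Q) (q0 : Q) (w : ℕ → S) : ℕ → Q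
  | 0 => q0
  | i + 1 => δ (run δ q0 w i) (w i)

/-- `W` is recognised by a finite deterministic parity automaton: the word is accepted when the
largest priority seen infinitely often is even. -/
def OmegaRegular (W : Set (ℕ → S)) : Prop :=
  ∃ (Q : Type) (_ : Finite Q) (q0 : Q) (δ : Q → S → Q) (pri : Q → ℕ),
    ∀ w : ℕ → S, w ∈ W ↔ ∃ e, Even e ∧ (∃ᶠ i in atTop, pri (run δ q0 w i) = e) ∧
      ∀ᶠ i in atTop, pri (run δ q0 w i) ≤ e

/-! ### Büchi games: chromatic memory from an automaton -/

section Buchi

variable {M : Type} (G : Game.{u} S) (μ : M → S → M) (acc : M → S → Prop)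

/-- `σ` is a strategy winning the Büchi objective from vertex `v` and memory state `m`. -/
def Wσ (σ : List (G.V × S) → G.V → S × G.V) (v : G.V) (m : M) : Prop :=
  (∀ h x, G.eve x → G.E x (σ h x).1 (σ h x).2) ∧
    ∀ (p : ℕ → G.V) (w : ℕ → S), p 0 = v → (∀ i, G.E (p i) (w i) (p (i + 1))) →
      (∀ i, G.eve (p i) → (w i, p (i + 1)) = σ (hist p w i) (p i)) →
      ∃ᶠ i in atTop, acc (mem μ m w i) (w i)

def Win (v : G.V) (m : M) : Prop := ∃ σ, Wσ G μ acc σ v m

theorem mem_shift (m : M) (w : ℕ → S) (i : ℕ) :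
    mem μ (μ m (w 0)) (fun j => w (j + 1)) i = mem μ m w (i + 1) := by
  induction i with
  | zero => rfl
  | succ i ih => simp only [mem] at ih ⊢; rw [ih]

theorem hist_succ {V : Type u} (p : ℕ → V) (w : ℕ → S) (i : ℕ) :
    hist p w (i + 1) = (p 0, w 0) :: hist (fun j => p (j + 1)) (fun j => w (j + 1)) i := by
  simp [hist, List.range_succ_eq_map, List.map_map, Function.comp_def]

theorem hist_succ' {V : Type u} (p : ℕ → V) (w : ℕ → S) (i : ℕ) :
    hist p w (i + 1) = hist p w i ++ [(p i, w i)] := by
  simp [hist, List.range_succ]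

theorem Wσ_shift {σ : List (G.V × S) → G.V → S × G.V} {v : G.V} {m : M}
    (h : Wσ G μ acc σ v m) {c : S} {x : G.V} (hE : G.E v c x)
    (hc : G.eve v → (c, x) = σ [] v) :
    Wσ G μ acc (fun hh y => σ ((v, c) :: hh) y) x (μ m c) := by
  refine ⟨fun hh y hy => h.1 _ y hy, ?_⟩
  intro p w hp0 hstep hcons
  let p' : ℕ → G.V := fun i => Nat.casesOn i v p
  let w' : ℕ → S := fun i => Nat.casesOn i c w
  have h1 := h.2 p' w' rfl (by
    intro i
    cases i with
    | zero => simpa [p', w', hp0] using hE
    | succ i => exact hstep i) (by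
    intro i
    cases i with
    | zero =>
      intro hv
      have := hc hv
      simpa [p', w', hist, hp0] using this
    | succ i =>
      intro hv
      have := hcons i hv
      rw [hist_succ]
      exact this)
  have h2 : ∃ᶠ i in atTop, acc (mem μ m w' (i + 1)) (w' (i + 1)) := by
    rw [frequently_atTop] at h1 ⊢
    intro a
    obtain ⟨b, hb, hb2⟩ := h1 (a + 1)
    exact ⟨b - 1, by omega, by rw [Nat.sub_add_cancel (by omega)]; exact hb2⟩
  refine h2.mono ?_
  intro i hi
  rw [← mem_shift] at hi
  exact hi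

/-- One-step operator of the attractor to an accepting edge, inside Eve's winning region. -/
def stepF : Set (G.V × M) →o Set (G.V × M) where
  toFun X := {y | (G.eve y.1 ∧ ∃ c x, G.E y.1 c x ∧ Win G μ acc x (μ y.2 c) ∧
      (acc y.2 c ∨ (x, μ y.2 c) ∈ X)) ∨
      (¬ G.eve y.1 ∧ ∀ c x, G.E y.1 c x → Win G μ acc x (μ y.2 c) ∧
      (acc y.2 c ∨ (x, μ y.2 c) ∈ X))}
  monotone' := by
    intro X Y hXY y hy
    rcases hy with ⟨h1, c, x, h2, h3, h4⟩ | ⟨h1, h2⟩
    · exact Or.inl ⟨h1, c, x, h2, h3, h4.imp id (fun h => hXY h)⟩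
    · exact Or.inr ⟨h1, fun c x hE => ⟨(h2 c x hE).1, (h2 c x hE).2.imp id (fun h => hXY h)⟩⟩

theorem Win_adam {v : G.V} {m : M} (h : Win G μ acc v m) (hv : ¬ G.eve v) {c : S} {x : G.V}
    (hE : G.E v c x) : Win G μ acc x (μ m c) := by
  obtain ⟨σ, hσ⟩ := h
  exact ⟨_, Wσ_shift G μ acc hσ hE (fun h => absurd h hv)⟩

theorem Win_sub_lfp {v : G.V} {m : M} (h : Win G μ acc v m) :
    (v, m) ∈ OrderHom.lfp (stepF G μ acc) := by
  classical
  set L := OrderHom.lfp (stepF G μ acc) with hL
  have hfix : stepF G μ acc L = L := OrderHom.map_lfp _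
  by_contra hnot
  obtain ⟨σ, hσ⟩ := h
  -- states: strategy, vertex, memory
  let St := {s : (List (G.V × S) → G.V → S × G.V) × G.V × M //
    Wσ G μ acc s.1 s.2.1 s.2.2 ∧ (s.2.1, s.2.2) ∉ L}
  have hnext : ∀ s : St, ∃ c x, G.E s.1.2.1 c x ∧ (G.eve s.1.2.1 → (c, x) = s.1.1 [] s.1.2.1) ∧
      ¬ acc s.1.2.2 c ∧ (x, μ s.1.2.2 c) ∉ L := by
    rintro ⟨⟨τ, y, m'⟩, hτ, hy⟩
    simp only at hτ hy ⊢
    rw [← hfix] at hy
    by_cases hev : G.eve y
    · have hE := hτ.1 [] y hev
      have hw : Win G μ acc (τ [] y).2 (μ m' (τ [] y).1) :=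
        ⟨_, Wσ_shift G μ acc hτ hE (fun _ => rfl)⟩
      refine ⟨(τ [] y).1, (τ [] y).2, hE, fun _ => rfl, ?_, ?_⟩
      · intro ha
        exact hy (Or.inl ⟨hev, _, _, hE, hw, Or.inl ha⟩)
      · intro ha
        exact hy (Or.inl ⟨hev, _, _, hE, hw, Or.inr ha⟩)
    · by_contra hcon
      push Not at hcon
      apply hy
      refine Or.inr ⟨hev, fun c x hE => ⟨⟨_, Wσ_shift G μ acc hτ hE (fun h => absurd h hev)⟩, ?_⟩⟩
      by_cases ha : acc m' c
      · exact Or.inl ha
      · exact Or.inr (hcon c x hE (fun h => absurd h hev) ha)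
  choose nc nx hnE hneve hnacc hnL using hnext
  let nxt : St → St := fun s =>
    ⟨(fun hh y => s.1.1 ((s.1.2.1, nc s) :: hh) y, nx s, μ s.1.2.2 (nc s)),
      Wσ_shift G μ acc s.2.1 (hnE s) (hneve s), hnL s⟩
  let seq : ℕ → St := fun i => Nat.rec ⟨(σ, v, m), hσ, hnot⟩ (fun _ s => nxt s) i
  let p : ℕ → G.V := fun i => (seq i).1.2.1
  let w : ℕ → S := fun i => nc (seq i)
  have hseq : ∀ i, seq (i + 1) = nxt (seq i) := fun i => rfl
  have hmem : ∀ i, (seq i).1.2.2 = mem μ m w i := by
    intro i
    induction i with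
    | zero => rfl
    | succ i ih =>
      rw [hseq]
      change μ (seq i).1.2.2 (nc (seq i)) = μ (mem μ m w i) (w i)
      rw [ih]
  have hstr : ∀ i hh y, (seq i).1.1 hh y = σ (hist p w i ++ hh) y := by
    intro i
    induction i with
    | zero => intro hh y; simp [hist]; rfl
    | succ i ih =>
      intro hh y
      rw [hseq]
      change (seq i).1.1 (((seq i).1.2.1, nc (seq i)) :: hh) y = _
      rw [ih, hist_succ']
      simp [p, w]
  have h1 := hσ.2 p w rfl (fun i => hnE (seq i)) (by
    intro i hi
    have := hneve (seq i) hi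
    rw [hstr i [] _] at this
    simpa using this)
  rw [frequently_atTop] at h1
  obtain ⟨b, _, hb⟩ := h1 0
  rw [← hmem b] at hb
  exact hnacc (seq b) hb

/-- The Büchi lemma: a deterministic Büchi automaton recognising an objective that Eve can win
gives a chromatic winning strategy whose memory is the automaton. -/
theorem buchi (m0 : M) (h : EveWins G {w | ∃ᶠ i in atTop, acc (mem μ m0 w i) (w i)}) :
    WinsWith G {w | ∃ᶠ i in atTop, acc (mem μ m0 w i) (w i)} m0 μ := by
  classical
  obtain ⟨σ, hσ1, hσ2⟩ := h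
  have hinit : Win G μ acc G.init m0 :=
    ⟨σ, hσ1, fun p w h0 hs hc => hσ2 p w ⟨h0, hs⟩ hc⟩
  set F := stepF G μ acc with hF
  let A : Ordinal → Set (G.V × M) := fun a => OrdinalApprox.lfpApprox F ⊥ a
  have hA : ∀ a y, y ∈ A a → ∃ b < a, y ∈ F (A b) := by
    intro a y hy
    simp only [A] at hy
    rw [OrdinalApprox.lfpApprox] at hy
    simp only [Set.sup_eq_union, Set.bot_eq_empty, Set.empty_union, Set.iSup_eq_iUnion,
      Set.mem_iUnion] at hy
    obtain ⟨b, hb, hyb⟩ := hy
    exact ⟨b, hb, hyb⟩
  have hex : ∀ v m, Win G μ acc v m → ∃ a, (v, m) ∈ A a := by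
    intro v m hw
    have h1 := Win_sub_lfp G μ acc hw
    obtain ⟨a, ha⟩ := OrdinalApprox.lfp_mem_range_lfpApprox F
    exact ⟨a, by simp only [A]; rw [ha]; exact h1⟩
  let rk : G.V × M → Ordinal := fun y => sInf {a | y ∈ A a}
  -- the choice at Eve's vertices
  have hch : ∀ v m, ∃ e : S × G.V, (G.eve v → G.E v e.1 e.2) ∧
      (G.eve v → Win G μ acc v m → Win G μ acc e.2 (μ m e.1) ∧
        (acc m e.1 ∨ rk (e.2, μ m e.1) < rk (v, m))) := by
    intro v m
    by_cases hw : G.eve v ∧ Win G μ acc v m
    · have hne : {a | (v, m) ∈ A a}.Nonempty := hex v m hw.2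
      have hmem' : (v, m) ∈ A (rk (v, m)) := csInf_mem hne
      obtain ⟨b, hb, hyb⟩ := hA _ _ hmem'
      rcases hyb with ⟨_, c, x, hE, hwx, hacc⟩ | ⟨h1, _⟩
      · refine ⟨(c, x), fun _ => hE, fun _ _ => ⟨hwx, hacc.imp id ?_⟩⟩
        intro hx
        exact lt_of_le_of_lt (csInf_le' (show b ∈ {a | (x, μ m c) ∈ A a} from hx)) hb
      · exact absurd hw.1 h1
    · obtain ⟨c, x, hE⟩ := G.total v
      exact ⟨(c, x), fun _ => hE, fun h1 h2 => absurd ⟨h1, h2⟩ hw⟩
  choose f hf1 hf2 using hch
  refine ⟨f, hf1, ?_⟩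
  intro p w hplay hcons
  have hwin : ∀ i, Win G μ acc (p i) (mem μ m0 w i) ∧
      (acc (mem μ m0 w i) (w i) ∨ rk (p (i + 1), mem μ m0 w (i + 1)) < rk (p i, mem μ m0 w i)) ∧
      Win G μ acc (p (i + 1)) (mem μ m0 w (i + 1)) := by
    have key : ∀ i, Win G μ acc (p i) (mem μ m0 w i) →
        (acc (mem μ m0 w i) (w i) ∨ rk (p (i + 1), mem μ m0 w (i + 1)) <
          rk (p i, mem μ m0 w i)) ∧ Win G μ acc (p (i + 1)) (mem μ m0 w (i + 1)) := by
      intro i hi
      by_cases hev : G.eve (p i)
      · have h1 := hcons i hev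
        have h2 := hf2 (p i) (mem μ m0 w i) hev hi
        have e1 : (f (p i) (mem μ m0 w i)).1 = w i := by rw [← h1]
        have e2 : (f (p i) (mem μ m0 w i)).2 = p (i + 1) := by rw [← h1]
        rw [e1, e2] at h2
        exact ⟨h2.2, h2.1⟩
      · have hne : {a | (p i, mem μ m0 w i) ∈ A a}.Nonempty := hex _ _ hi
        have hmem' : (p i, mem μ m0 w i) ∈ A (rk (p i, mem μ m0 w i)) := csInf_mem hne
        obtain ⟨b, hb, hyb⟩ := hA _ _ hmem'
        rcases hyb with ⟨h1, _⟩ | ⟨_, h1⟩
        · exact absurd h1 hev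
        · have h2 := h1 (w i) (p (i + 1)) (hplay.step i)
          refine ⟨h2.2.imp id ?_, h2.1⟩
          intro hx
          exact lt_of_le_of_lt
            (csInf_le' (show b ∈ {a | (p (i + 1), μ (mem μ m0 w i) (w i)) ∈ A a} from hx)) hb
    have hw : ∀ i, Win G μ acc (p i) (mem μ m0 w i) := by
      intro i
      induction i with
      | zero => rw [hplay.start]; exact hinit
      | succ i ih => exact (key i ih).2
    exact fun i => ⟨hw i, key i (hw i)⟩
  -- infinitely many accepting steps, since the rank cannot decrease forever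
  change ∃ᶠ i in atTop, acc (mem μ m0 w i) (w i)
  by_contra hcon
  rw [not_frequently] at hcon
  obtain ⟨N, hN⟩ := eventually_atTop.1 hcon
  have hdec : ∀ i, rk (p (N + (i + 1)), mem μ m0 w (N + (i + 1))) <
      rk (p (N + i), mem μ m0 w (N + i)) := by
    intro i
    rcases (hwin (N + i)).2.1 with h | h
    · exact absurd h (hN (N + i) (by omega))
    · exact h
  exact (RelEmbedding.not_wellFounded (r := ((· < ·) : Ordinal → Ordinal → Prop))
    (RelEmbedding.natGT (fun i => rk (p (N + i), mem μ m0 w (N + i))) hdec))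
    Ordinal.lt_wf

end Buchi


/-! ### General lemmas on strategies -/

theorem WinsWith.mono {M : Type} {G : Game.{u} S} {W W' : Set (ℕ → S)} {m0 : M} {μ : M → S → M}
    (h : WinsWith G W m0 μ) (hW : W ⊆ W') : WinsWith G W' m0 μ := by
  obtain ⟨f, h1, h2⟩ := h
  exact ⟨f, h1, fun p w hp hc => hW (h2 p w hp hc)⟩

theorem EveWins.mono {G : Game.{u} S} {W W' : Set (ℕ → S)} (h : EveWins G W) (hW : W ⊆ W') :
    EveWins G W' := by
  obtain ⟨f, h1, h2⟩ := h
  exact ⟨f, h1, fun p w hp hc => hW (h2 p w hp hc)⟩

theorem mem_eq_foldl {M : Type} (μ : M → S → M) (m0 : M) {V : Type u} (p : ℕ → V) (w : ℕ → S)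
    (i : ℕ) : mem μ m0 w i = List.foldl μ m0 ((hist p w i).map Prod.snd) := by
  induction i with
  | zero => rfl
  | succ i ih =>
    rw [hist_succ', List.map_append, List.foldl_append, ← ih]
    rfl

theorem WinsWith.eveWins {M : Type} {G : Game.{u} S} {W : Set (ℕ → S)} {m0 : M} {μ : M → S → M}
    (h : WinsWith G W m0 μ) : EveWins G W := by
  obtain ⟨f, h1, h2⟩ := h
  refine ⟨fun hh v => f v (List.foldl μ m0 (hh.map Prod.snd)), fun hh v hv => h1 v _ hv, ?_⟩
  intro p w hp hc
  refine h2 p w hp (fun i hi => ?_)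
  rw [mem_eq_foldl μ m0 p w i]
  exact hc i hi

theorem length_hist {V : Type u} (p : ℕ → V) (w : ℕ → S) (i : ℕ) : (hist p w i).length = i := by
  simp [hist]

/-- In a one-player game, a winning play gives a winning strategy. -/
theorem eveWins_of_play {G : Game.{u} S} (hG : OnePlayer G) {W : Set (ℕ → S)} {p0 : ℕ → G.V}
    {w0 : ℕ → S} (hp0 : IsPlay G p0 w0) (hw0 : w0 ∈ W) : EveWins G W := by
  classical
  choose tc tx hT using G.total
  refine ⟨fun h v => if v = p0 h.length then (w0 h.length, p0 (h.length + 1)) else (tc v, tx v),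
    ?_, ?_⟩
  · intro h v _
    by_cases hv : v = p0 h.length
    · simp only [hv, if_true]
      exact hp0.step _
    · simp only [hv, if_false]
      exact hT v
  · intro p w hp hc
    have key : ∀ i, p i = p0 i := by
      intro i
      induction i with
      | zero => rw [hp.start, hp0.start]
      | succ i ih =>
        have h1 := hc i (hG _)
        simp only [length_hist, ih, if_true] at h1
        exact congrArg Prod.snd h1
    have key2 : w = w0 := by
      funext i
      have h1 := hc i (hG _)
      simp only [length_hist, key i, if_true] at h1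
      exact congrArg Prod.fst h1
    rw [key2]
    exact hw0

/-- In a one-player game that Eve wins there is a winning play. -/
theorem exists_play {G : Game.{u} S} (hG : OnePlayer G) {W : Set (ℕ → S)} (h : EveWins G W) :
    ∃ (p : ℕ → G.V) (w : ℕ → S), IsPlay G p w ∧ w ∈ W := by
  obtain ⟨σ, h1, h2⟩ := h
  let st : ℕ → List (G.V × S) × G.V := fun i =>
    Nat.rec ([], G.init) (fun _ s => (s.1 ++ [(s.2, (σ s.1 s.2).1)], (σ s.1 s.2).2)) i
  let p : ℕ → G.V := fun i => (st i).2
  let w : ℕ → S := fun i => (σ (st i).1 (st i).2).1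
  have hh : ∀ i, (st i).1 = hist p w i := by
    intro i
    induction i with
    | zero => rfl
    | succ i ih =>
      rw [hist_succ', ← ih]
  have hplay : IsPlay G p w := ⟨rfl, fun i => h1 _ _ (hG _)⟩
  refine ⟨p, w, hplay, h2 p w hplay (fun i _ => ?_)⟩
  rw [← hh i]

/-! ### The objective: two different letters other than the neutral letter `0` -/

/-- The objective `W n` over the alphabet `{0, 1, ..., n}`: two different letters among
`1, ..., n` both occur infinitely often (`0` is a neutral letter). -/
def W (n : ℕ) : Set (ℕ → Fin (n + 1)) :=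
  {w | ∃ a b : Fin (n + 1), a ≠ 0 ∧ b ≠ 0 ∧ a ≠ b ∧ (∃ᶠ i in atTop, w i = a) ∧
    ∃ᶠ i in atTop, w i = b}

/-- Remember the last letter other than `0`. -/
def lastμ (n : ℕ) (m : Fin n) (c : Fin (n + 1)) : Fin n := if h : c = 0 then m else c.pred h

def lastAcc (n : ℕ) (m : Fin n) (c : Fin (n + 1)) : Prop := c ≠ 0 ∧ c ≠ m.succ

theorem lastμ_zero {n : ℕ} (m : Fin n) : lastμ n m 0 = m := by simp [lastμ]

theorem lastμ_succ {n : ℕ} (m m' : Fin n) : lastμ n m m'.succ = m' := by
  simp [lastμ, Fin.succ_ne_zero]

theorem W_iff {n : ℕ} (m0 : Fin n) (w : ℕ → Fin (n + 1)) :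
    w ∈ W n ↔ ∃ᶠ i in atTop, lastAcc n (mem (lastμ n) m0 w i) (w i) := by
  constructor
  · rintro ⟨a, b, ha, hb, hab, hfa, hfb⟩
    by_contra hcon
    rw [not_frequently] at hcon
    obtain ⟨N, hN⟩ := eventually_atTop.1 hcon
    have key : ∀ j, mem (lastμ n) m0 w (N + j) = mem (lastμ n) m0 w N := by
      intro j
      induction j with
      | zero => rfl
      | succ j ih =>
        have h1 := hN (N + j) (by omega)
        rw [ih] at h1
        have : mem (lastμ n) m0 w (N + (j + 1)) =
            lastμ n (mem (lastμ n) m0 w (N + j)) (w (N + j)) := rfl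
        rw [this, ih]
        simp only [lastAcc, not_and, not_not] at h1
        by_cases h0 : w (N + j) = 0
        · rw [h0, lastμ_zero]
        · rw [h1 h0, lastμ_succ]
    have key2 : ∀ c : Fin (n + 1), c ≠ 0 → (∃ᶠ i in atTop, w i = c) →
        c = (mem (lastμ n) m0 w N).succ := by
      intro c hc hf
      obtain ⟨i, hi, hic⟩ := frequently_atTop.1 hf N
      obtain ⟨j, rfl⟩ := Nat.exists_eq_add_of_le hi
      have h1 := hN (N + j) (by omega)
      rw [key j] at h1
      simp only [lastAcc, not_and, not_not] at h1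
      rw [← hic]
      exact h1 (by rw [hic]; exact hc)
    exact hab ((key2 a ha hfa).trans (key2 b hb hfb).symm)
  · intro hf
    have h1 : ∃ a, ∃ᶠ i in atTop, lastAcc n (mem (lastμ n) m0 w i) (w i) ∧ w i = a := by
      by_contra hcon
      have h2 := (eventually_all (ι := Fin (n + 1))).2
        (fun a => not_frequently.1 (not_exists.1 hcon a))
      apply hf
      filter_upwards [h2] with i hi
      intro ha
      exact hi (w i) ⟨ha, rfl⟩
    obtain ⟨a, ha⟩ := h1
    have ha0 : a ≠ 0 := by
      obtain ⟨i, hi⟩ := ha.exists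
      rw [← hi.2]
      exact hi.1.1
    have hfa : ∃ᶠ i in atTop, w i = a := ha.mono (fun i hi => hi.2)
    by_contra hcon
    have h2 : ∀ b : Fin (n + 1), b ≠ 0 → b ≠ a → ∀ᶠ i in atTop, w i ≠ b := by
      intro b hb hba
      rw [← not_frequently]
      intro hfb
      exact hcon ⟨a, b, ha0, hb, hba.symm, hfa, hfb⟩
    have h3 : ∀ᶠ i in atTop, ∀ b : Fin (n + 1), b ≠ 0 → b ≠ a → w i ≠ b := by
      rw [eventually_all]
      intro b
      by_cases hb : b ≠ 0 ∧ b ≠ a
      · filter_upwards [h2 b hb.1 hb.2] with i hi _ _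
        exact hi
      · exact Eventually.of_forall (fun i h1 h2 => absurd ⟨h1, h2⟩ hb)
    obtain ⟨N, hN⟩ := eventually_atTop.1 h3
    have hw : ∀ i, N ≤ i → w i = 0 ∨ w i = a := by
      intro i hi
      by_contra h
      push Not at h
      exact hN i hi (w i) h.1 h.2 rfl
    obtain ⟨i, hi, hacc, hia⟩ := frequently_atTop.1 ha N
    have key : ∀ j, mem (lastμ n) m0 w (i + 1 + j) = a.pred ha0 := by
      intro j
      induction j with
      | zero =>
        change lastμ n (mem (lastμ n) m0 w i) (w i) = _
        unfold lastμ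
        rw [dif_neg (by rw [hia]; exact ha0)]
        simp only [hia]
      | succ j ih =>
        change lastμ n (mem (lastμ n) m0 w (i + 1 + j)) (w (i + 1 + j)) = _
        rw [ih]
        unfold lastμ
        split_ifs with h0
        · rfl
        · have := (hw (i + 1 + j) (by omega)).resolve_left h0
          simp only [this]
    obtain ⟨j, hj, hjacc⟩ := frequently_atTop.1 hf (i + 1)
    obtain ⟨j, rfl⟩ := Nat.exists_eq_add_of_le hj
    rw [key j] at hjacc
    rcases hw (i + 1 + j) (by omega) with h | h
    · exact hjacc.1 h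
    · exact hjacc.2 (by rw [h, Fin.succ_pred])

theorem W_eq {n : ℕ} (m0 : Fin n) :
    W n = {w | ∃ᶠ i in atTop, lastAcc n (mem (lastμ n) m0 w i) (w i)} := by
  ext w
  exact W_iff m0 w

/-- Upper bound for arbitrary games. -/
theorem upper_two {n : ℕ} (hn : 0 < n) (G : Game.{u} (Fin (n + 1))) (h : EveWins G (W n)) :
    WinsChromatic G (W n) n := by
  refine ⟨⟨0, hn⟩, lastμ n, ?_⟩
  rw [W_eq ⟨0, hn⟩] at h ⊢
  exact buchi G (lastμ n) (lastAcc n) _ h

/-! ### Two states are enough in one-player games -/

open Classical in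
/-- State `0`: waiting for `a`; state `1`: waiting for `b`. -/
noncomputable def pairμ (a b : S) (m : Fin 2) (c : S) : Fin 2 :=
  if m = 0 then (if c = a then 1 else 0) else (if c = b then 0 else 1)

def pairAcc (a b : S) (m : Fin 2) (c : S) : Prop := (m = 0 ∧ c = a) ∨ (m = 1 ∧ c = b)

theorem pair_iff (a b : S) (w : ℕ → S) :
    ((∃ᶠ i in atTop, w i = a) ∧ ∃ᶠ i in atTop, w i = b) ↔
      ∃ᶠ i in atTop, pairAcc a b (mem (pairμ a b) 0 w i) (w i) := by
  classical
  set q := mem (pairμ a b) 0 w with hq
  have hs : ∀ i, q (i + 1) = pairμ a b (q i) (w i) := fun i => rfl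
  have two : ∀ m : Fin 2, m = 0 ∨ m = 1 := by decide
  constructor
  · rintro ⟨hfa, hfb⟩
    by_contra hcon
    rw [not_frequently] at hcon
    obtain ⟨N, hN⟩ := eventually_atTop.1 hcon
    have key : ∀ j, q (N + j) = q N := by
      intro j
      induction j with
      | zero => rfl
      | succ j ih =>
        have h1 := hN (N + j) (by omega)
        rw [ih] at h1
        have h2 : q (N + (j + 1)) = pairμ a b (q (N + j)) (w (N + j)) := hs (N + j)
        rw [h2, ih]
        simp only [pairAcc, not_or, not_and] at h1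
        unfold pairμ
        rcases two (q N) with h | h
        · rw [if_pos h, if_neg (h1.1 h), h]
        · rw [if_neg (by rw [h]; decide), if_neg (h1.2 h), h]
    rcases two (q N) with h | h
    · obtain ⟨i, hi, hia⟩ := frequently_atTop.1 hfa N
      obtain ⟨j, rfl⟩ := Nat.exists_eq_add_of_le hi
      exact hN (N + j) (by omega) (Or.inl ⟨by rw [key j, h], hia⟩)
    · obtain ⟨i, hi, hia⟩ := frequently_atTop.1 hfb N
      obtain ⟨j, rfl⟩ := Nat.exists_eq_add_of_le hi
      exact hN (N + j) (by omega) (Or.inr ⟨by rw [key j, h], hia⟩)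
  · intro hf
    constructor
    · by_contra hcon
      rw [not_frequently] at hcon
      obtain ⟨N, hN⟩ := eventually_atTop.1 hcon
      obtain ⟨i, hi, hacc⟩ := frequently_atTop.1 hf N
      have hacc' := hacc.resolve_left (fun h => hN i hi h.2)
      have key : ∀ j, q (i + 1 + j) = 0 := by
        intro j
        induction j with
        | zero =>
          change q (i + 1) = 0
          rw [hs, pairμ, if_neg (by rw [hacc'.1]; decide), if_pos hacc'.2]
        | succ j ih =>
          have h2 : q (i + 1 + (j + 1)) = pairμ a b (q (i + 1 + j)) (w (i + 1 + j)) :=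
            hs (i + 1 + j)
          rw [h2, ih, pairμ, if_pos rfl, if_neg (hN _ (by omega))]
      obtain ⟨j, hj, hjacc⟩ := frequently_atTop.1 hf (i + 1)
      obtain ⟨j, rfl⟩ := Nat.exists_eq_add_of_le hj
      rcases hjacc with h | h
      · exact hN _ (by omega) h.2
      · rw [key j] at h
        exact absurd h.1 (by decide)
    · by_contra hcon
      rw [not_frequently] at hcon
      obtain ⟨N, hN⟩ := eventually_atTop.1 hcon
      obtain ⟨i, hi, hacc⟩ := frequently_atTop.1 hf N
      have hacc' := hacc.resolve_right (fun h => hN i hi h.2)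
      have key : ∀ j, q (i + 1 + j) = 1 := by
        intro j
        induction j with
        | zero =>
          change q (i + 1) = 1
          rw [hs, pairμ, if_pos hacc'.1, if_pos hacc'.2]
        | succ j ih =>
          have h2 : q (i + 1 + (j + 1)) = pairμ a b (q (i + 1 + j)) (w (i + 1 + j)) :=
            hs (i + 1 + j)
          rw [h2, ih, pairμ, if_neg (by decide), if_neg (hN _ (by omega))]
      obtain ⟨j, hj, hjacc⟩ := frequently_atTop.1 hf (i + 1)
      obtain ⟨j, rfl⟩ := Nat.exists_eq_add_of_le hj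
      rcases hjacc with h | h
      · rw [key j] at h
        exact absurd h.1 (by decide)
      · exact hN _ (by omega) h.2

/-- Upper bound for one-player games. -/
theorem upper_one {n : ℕ} (G : Game.{u} (Fin (n + 1))) (hG : OnePlayer G)
    (h : EveWins G (W n)) : WinsChromatic G (W n) 2 := by
  obtain ⟨p, w, hp, a, b, ha, hb, hab, hfa, hfb⟩ := exists_play hG h
  refine ⟨0, pairμ a b, ?_⟩
  have h1 : EveWins G {w | ∃ᶠ i in atTop, pairAcc a b (mem (pairμ a b) 0 w i) (w i)} :=
    eveWins_of_play hG hp ((pair_iff a b w).1 ⟨hfa, hfb⟩)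
  refine (buchi G (pairμ a b) (pairAcc a b) 0 h1).mono ?_
  intro w' hw'
  have h2 := (pair_iff a b w').2 hw'
  exact ⟨a, b, ha, hb, hab, h2.1, h2.2⟩


/-! ### Lower bound for one-player games -/

/-- One vertex, owned by Eve, with a loop of every colour other than `0`. -/
def loopGame (n : ℕ) (hn : 0 < n) : Game.{u} (Fin (n + 1)) where
  V := PUnit.{u + 1}
  E _ c _ := c ≠ 0
  eve _ := True
  init := PUnit.unit
  total _ := ⟨⟨1, by omega⟩, PUnit.unit, by simp [Fin.ext_iff]⟩

theorem loop_wins {n : ℕ} (hn : 2 ≤ n) : EveWins (loopGame.{u} n (by omega)) (W n) := by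
  let a : Fin (n + 1) := ⟨1, by omega⟩
  let b : Fin (n + 1) := ⟨2, by omega⟩
  have ha : a ≠ 0 := by simp [a, Fin.ext_iff]
  have hb : b ≠ 0 := by simp [b, Fin.ext_iff]
  have hab : a ≠ b := by simp [a, b, Fin.ext_iff]
  let w : ℕ → Fin (n + 1) := fun i => if i % 2 = 0 then a else b
  refine eveWins_of_play (fun _ => trivial) (p0 := fun _ => PUnit.unit) (w0 := w)
    ⟨rfl, fun i => ?_⟩ ⟨a, b, ha, hb, hab, ?_, ?_⟩
  · change w i ≠ 0
    simp only [w]
    split_ifs
    · exact ha
    · exact hb
  · rw [frequently_atTop]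
    intro N
    exact ⟨2 * N, by omega, by simp [w]⟩
  · rw [frequently_atTop]
    intro N
    exact ⟨2 * N + 1, by omega, by simp [w, Nat.add_mod]⟩

theorem loop_not_one {n : ℕ} (hn : 2 ≤ n) {k : ℕ} (hk : k < 2) :
    ¬ WinsChromatic (loopGame.{u} n (by omega)) (W n) k := by
  rintro ⟨m0, μ, f, hf, hwin⟩
  have hk1 : k = 1 := by
    have := m0.2
    omega
  subst hk1
  let c : Fin (n + 1) := (f PUnit.unit m0).1
  have hc0 : c ≠ 0 := hf PUnit.unit m0 trivial
  have h1 := hwin (fun _ => PUnit.unit) (fun _ => c) ⟨rfl, fun _ => hc0⟩ (fun i _ => by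
    have : mem μ m0 (fun _ => c) i = m0 := Subsingleton.elim _ _
    rw [this]
    exact Prod.ext rfl rfl)
  obtain ⟨a, b, _, _, hab, hfa, hfb⟩ := h1
  obtain ⟨_, hi⟩ := hfa.exists
  obtain ⟨_, hj⟩ := hfb.exists
  exact hab (hi.symm.trans hj)

/-! ### Lower bound for arbitrary games -/

/-- The vertices of the two-player game: `v` is Eve's and `x j` (`j < n`) are Adam's. -/
inductive Vert (n : ℕ) : Type u
  | v : Vert n
  | x : Fin n → Vert n

/-- Eve chooses `j` (moving from `v` to `x j` along an edge with the neutral colour `0`); Adam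
answers with any letter other than `j` (the letters are the `i.succ`, `i < n`) and goes back. -/
inductive Edge (n : ℕ) : Vert.{u} n → Fin (n + 1) → Vert.{u} n → Prop
  | choose (j : Fin n) : Edge n Vert.v 0 (Vert.x j)
  | answer (j i : Fin n) (h : i ≠ j) : Edge n (Vert.x j) i.succ Vert.v

def twoGame (n : ℕ) (hn : 2 ≤ n) : Game.{u} (Fin (n + 1)) where
  V := Vert.{u} n
  E := Edge n
  eve y := y = Vert.v
  init := Vert.v
  total := by
    rintro (_ | j)
    · exact ⟨0, _, Edge.choose ⟨0, by omega⟩⟩
    · by_cases hj : j = ⟨0, by omega⟩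
      · exact ⟨_, _, Edge.answer j ⟨1, by omega⟩ (by rw [hj]; simp [Fin.ext_iff])⟩
      · exact ⟨_, _, Edge.answer j ⟨0, by omega⟩ (Ne.symm hj)⟩

theorem two_wins {n : ℕ} (hn : 2 ≤ n) : EveWins (twoGame.{u} n hn) (W n) := by
  classical
  apply WinsWith.eveWins (m0 := (⟨0, by omega⟩ : Fin n)) (μ := lastμ n)
  rw [W_eq ⟨0, by omega⟩]
  refine ⟨fun y m => (0, Vert.x m), ?_, ?_⟩
  · rintro y m rfl
    exact Edge.choose m
  · intro p w hp hc
    have hv : ∀ i, p (2 * i) = Vert.v := by
      intro i
      induction i with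
      | zero => exact hp.start
      | succ i ih =>
        have h1 := hc (2 * i) ih
        have h2 : p (2 * i + 1) = Vert.x _ := congrArg Prod.snd h1
        have h3 := hp.step (2 * i + 1)
        rw [h2] at h3
        have h4 : p (2 * (i + 1)) = p (2 * i + 1 + 1) := by congr 1
        rw [h4]
        generalize p (2 * i + 1 + 1) = y at h3 ⊢
        generalize w (2 * i + 1) = c at h3
        cases h3
        rfl
    change ∃ᶠ i in atTop, lastAcc n (mem (lastμ n) ⟨0, by omega⟩ w i) (w i)
    rw [frequently_atTop]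
    intro N
    refine ⟨2 * N + 1, by omega, ?_⟩
    have h1 := hc (2 * N) (hv N)
    have h2 : p (2 * N + 1) = Vert.x _ := congrArg Prod.snd h1
    have h0 : w (2 * N) = 0 := congrArg Prod.fst h1
    have h3 := hp.step (2 * N + 1)
    rw [h2] at h3
    have h5 : mem (lastμ n) (⟨0, by omega⟩ : Fin n) w (2 * N + 1) =
        mem (lastμ n) (⟨0, by omega⟩ : Fin n) w (2 * N) := by
      change lastμ n (mem (lastμ n) _ w (2 * N)) (w (2 * N)) = _
      rw [h0, lastμ_zero]
    rw [h5]
    generalize mem (lastμ n) (⟨0, by omega⟩ : Fin n) w (2 * N) = m at h3 ⊢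
    generalize w (2 * N + 1) = c at h3 ⊢
    generalize p (2 * N + 1 + 1) = y at h3
    cases h3 with
    | answer _ i h => exact ⟨Fin.succ_ne_zero i, fun h6 => h (Fin.succ_injective _ h6)⟩

theorem two_not {n : ℕ} (hn : 2 ≤ n) {k : ℕ} (hk : k < n) :
    ¬ WinsChromatic (twoGame.{u} n hn) (W n) k := by
  classical
  rintro ⟨m0, μ, f, hf, hwin⟩
  have hedge : ∀ (c : Fin (n + 1)) (y : Vert.{u} n), Edge n Vert.v c y →
      c = 0 ∧ ∃ j, y = Vert.x j := by
    intro c y h
    cases h with
    | choose j => exact ⟨rfl, j, rfl⟩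
  have hfv : ∀ m, ∃ j, f Vert.v m = (0, Vert.x j) := by
    intro m
    obtain ⟨h1, j, h2⟩ := hedge _ _ (hf Vert.v m rfl)
    exact ⟨j, Prod.ext h1 h2⟩
  choose c hc using hfv
  have hnot : ¬ Function.Surjective c := by
    intro hs
    have := Fintype.card_le_of_surjective c hs
    simp at this
    omega
  simp only [Function.Surjective, not_forall, not_exists] at hnot
  obtain ⟨j, hj⟩ := hnot
  let w : ℕ → Fin (n + 1) := fun i => if i % 2 = 0 then 0 else j.succ
  let p : ℕ → Vert.{u} n := fun i =>
    if i % 2 = 0 then Vert.v else Vert.x (c (mem μ m0 w (i - 1)))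
  have hplay : IsPlay (twoGame.{u} n hn) p w := by
    refine ⟨rfl, fun i => ?_⟩
    rcases Nat.mod_two_eq_zero_or_one i with hi | hi
    · have h1 : p i = Vert.v := by simp [p, hi]
      have h2 : p (i + 1) = Vert.x (c (mem μ m0 w i)) := by
        have : (i + 1) % 2 ≠ 0 := by omega
        simp [p, this]
      have h3 : w i = 0 := by simp [w, hi]
      rw [h1, h2, h3]
      exact Edge.choose _
    · have hi' : i % 2 ≠ 0 := by omega
      have h1 : p i = Vert.x (c (mem μ m0 w (i - 1))) := by simp [p, hi']
      have h2 : p (i + 1) = Vert.v := by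
        have : (i + 1) % 2 = 0 := by omega
        simp [p, this]
      have h3 : w i = j.succ := by simp [w, hi']
      rw [h1, h2, h3]
      exact Edge.answer _ _ (fun h => hj _ h.symm)
  have h1 := hwin p w hplay (by
    intro i hi
    have hi2 : i % 2 = 0 := by
      by_contra h
      have h1 : p i = Vert.x (c (mem μ m0 w (i - 1))) := by simp [p, h]
      have h2 : p i = Vert.v := hi
      rw [h1] at h2
      cases h2
    have h1 : p i = Vert.v := hi
    have h2 : p (i + 1) = Vert.x (c (mem μ m0 w i)) := by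
      have : (i + 1) % 2 ≠ 0 := by omega
      simp [p, this]
    have h3 : w i = 0 := by simp [w, hi2]
    rw [h1, h2, h3, hc]
    rfl)
  obtain ⟨a, b, ha, hb, hab, hfa, hfb⟩ := h1
  have hval : ∀ i, w i ≠ 0 → w i = j.succ := by
    intro i hi
    simp only [w] at hi ⊢
    split_ifs at hi ⊢ with h
    · exact absurd rfl hi
    · rfl
  obtain ⟨i, hi⟩ := hfa.exists
  obtain ⟨i', hi'⟩ := hfb.exists
  have e1 := hval i (by rw [hi]; exact ha)
  have e2 := hval i' (by rw [hi']; exact hb)
  exact hab (by rw [← hi, ← hi', e1, e2])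

/-! ### ω-regularity -/

open Classical in
/-- A deterministic Büchi automaton for a condition of the form: infinitely many accepting transitions. -/
theorem omegaRegular_buchi {M : Type} [Finite M] (μ : M → S → M) (acc : M → S → Prop) (m0 : M) :
    OmegaRegular {w : ℕ → S | ∃ᶠ i in atTop, acc (mem μ m0 w i) (w i)} := by
  let δ : M × Bool → S → M × Bool := fun q c => (μ q.1 c, decide (acc q.1 c))
  refine ⟨M × Bool, inferInstance, (m0, false), δ, fun q => if q.2 then 2 else 1, ?_⟩
  intro w
  have hrun : ∀ i, (run δ (m0, false) w i).1 = mem μ m0 w i := by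
    intro i
    induction i with
    | zero => rfl
    | succ i ih =>
      change μ (run δ (m0, false) w i).1 (w i) = _
      rw [ih]
      rfl
  have hrun2 : ∀ i, (run δ (m0, false) w (i + 1)).2 = decide (acc (mem μ m0 w i) (w i)) := by
    intro i
    change decide (acc (run δ (m0, false) w i).1 (w i)) = _
    rw [hrun]
  have hle : ∀ i, (if (run δ (m0, false) w i).2 then 2 else 1) ≤ 2 := by
    intro i
    split_ifs <;> omega
  constructor
  · intro h
    refine ⟨2, even_two, ?_, Eventually.of_forall hle⟩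
    rw [frequently_atTop]
    intro N
    obtain ⟨i, hi, hacc⟩ := frequently_atTop.1 h N
    refine ⟨i + 1, by omega, ?_⟩
    change (if (run δ (m0, false) w (i + 1)).2 = true then 2 else 1) = 2
    rw [hrun2 i, if_pos (by simpa using hacc)]
  · rintro ⟨e, he, hf, _⟩
    change ∃ᶠ i in atTop, acc (mem μ m0 w i) (w i)
    rw [frequently_atTop] at hf ⊢
    intro N
    obtain ⟨i, hi, hpri⟩ := hf (N + 1)
    obtain ⟨i, rfl⟩ : ∃ k, i = k + 1 := ⟨i - 1, by omega⟩
    refine ⟨i, by omega, ?_⟩
    change (if (run δ (m0, false) w (i + 1)).2 = true then 2 else 1) = e at hpri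
    rw [hrun2 i] at hpri
    by_contra hna
    rw [if_neg (by simpa using hna)] at hpri
    rw [← hpri] at he
    exact absurd he (by decide)

theorem W_omegaRegular {n : ℕ} (hn : 0 < n) : OmegaRegular (W n) := by
  rw [W_eq ⟨0, hn⟩]
  exact omegaRegular_buchi _ _ _

theorem memory_one {n : ℕ} (hn : 2 ≤ n) :
    IsChromaticMemory OnePlayer.{u} (W n) 2 := by
  refine ⟨fun G hG h => upper_one G hG h, ?_⟩
  intro k hk
  by_contra hlt
  exact loop_not_one.{u} hn (not_le.1 hlt) (hk _ (fun _ => trivial) (loop_wins hn))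

theorem memory_two {n : ℕ} (hn : 2 ≤ n) :
    IsChromaticMemory Arbitrary.{u} (W n) n := by
  refine ⟨fun G _ h => upper_two (by omega) G h, ?_⟩
  intro k hk
  by_contra hlt
  exact two_not.{u} hn (not_le.1 hlt) (hk _ trivial (two_wins hn))


/-! ### The version with one fixed memory structure for all games -/

/-- The memory structure `(M, m0, μ)` is sufficient for Eve to win every game of the class `C`
with objective `W` that she can win at all (one structure for all the games). -/
def Suffices {M : Type} (C : Game.{u} S → Prop) (W : Set (ℕ → S)) (m0 : M) (μ : M → S → M) :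
    Prop :=
  ∀ G : Game.{u} S, C G → EveWins G W → WinsWith G W m0 μ

/-- Eve can play positionally: the memory structure with one state is sufficient. -/
def Positional (C : Game.{u} S → Prop) (W : Set (ℕ → S)) : Prop :=
  Suffices C W () (fun _ _ => ())

/-- The one-to-two-player lift for positionality of ω-regular objectives (the case of one memory
state, a theorem of Casares and Ohlmann). -/
def PositionalLift : Prop :=
  ∀ (S : Type) [Finite S] (W : Set (ℕ → S)), OmegaRegular W →
    Positional OnePlayer.{u} W → Positional Arbitrary.{u} W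

section Lift

variable {M : Type} (W : Set (ℕ → S)) (m0 : M) (μ : M → S → M)

/-- Words over `S × M` whose second component is not the run of the memory structure, or whose
first component lies in `W`. -/
def WM : Set (ℕ → S × M) :=
  {w | (∃ i, (w i).2 ≠ mem μ m0 (fun j => (w j).1) i) ∨ (fun j => (w j).1) ∈ W}

open Classical in
theorem WM_omegaRegular [Finite M] (hW : OmegaRegular W) : OmegaRegular (WM W m0 μ) := by
  obtain ⟨Q, _, q0, δ, pri, hQ⟩ := hW
  let δ' : Option (Q × M) → S × M → Option (Q × M) := fun s c =>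
    match s with
    | none => none
    | some (q, m) => if c.2 = m then some (δ q c.1, μ m c.1) else none
  let pri' : Option (Q × M) → ℕ := fun s =>
    match s with
    | none => 0
    | some (q, _) => pri q
  refine ⟨Option (Q × M), inferInstance, some (q0, m0), δ', pri', ?_⟩
  intro w
  by_cases hcons : ∃ i, (w i).2 ≠ mem μ m0 (fun j => (w j).1) i
  · have hin : w ∈ WM W m0 μ := Or.inl hcons
    refine ⟨fun _ => ?_, fun _ => hin⟩
    obtain ⟨i, hi⟩ := hcons
    have hshape : ∀ j, run δ' (some (q0, m0)) w j = none ∨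
        ∃ q, run δ' (some (q0, m0)) w j = some (q, mem μ m0 (fun j => (w j).1) j) := by
      intro j
      induction j with
      | zero => exact Or.inr ⟨q0, rfl⟩
      | succ j ih =>
        rcases ih with h | ⟨q, h⟩
        · left
          change δ' (run δ' (some (q0, m0)) w j) (w j) = none
          rw [h]
        · change δ' (run δ' (some (q0, m0)) w j) (w j) = none ∨ _
          by_cases h2 : (w j).2 = mem μ m0 (fun j => (w j).1) j
          · right
            refine ⟨δ q (w j).1, ?_⟩
            change δ' (run δ' (some (q0, m0)) w j) (w j) = _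
            rw [h]
            simp only [δ', if_pos h2]
            rfl
          · left
            rw [h]
            simp only [δ', if_neg h2]
    have hnone : run δ' (some (q0, m0)) w (i + 1) = none := by
      change δ' (run δ' (some (q0, m0)) w i) (w i) = none
      rcases hshape i with h | ⟨q, h⟩
      · rw [h]
      · rw [h]
        simp only [δ', if_neg hi]
    have hstay : ∀ j, run δ' (some (q0, m0)) w (i + 1 + j) = none := by
      intro j
      induction j with
      | zero => exact hnone
      | succ j ih =>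
        change δ' (run δ' (some (q0, m0)) w (i + 1 + j)) (w (i + 1 + j)) = none
        rw [ih]
    have hev : ∀ᶠ j in atTop, pri' (run δ' (some (q0, m0)) w j) = 0 := by
      rw [eventually_atTop]
      refine ⟨i + 1, fun j hj => ?_⟩
      obtain ⟨k, rfl⟩ := Nat.exists_eq_add_of_le hj
      rw [hstay k]
    exact ⟨0, ⟨0, rfl⟩, hev.frequently, hev.mono fun j hj => hj.le⟩
  · have hcons' : ∀ i, (w i).2 = mem μ m0 (fun j => (w j).1) i := by
      intro i
      by_contra h
      exact hcons ⟨i, h⟩
    have hrun : ∀ j, run δ' (some (q0, m0)) w j =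
        some (run δ q0 (fun j => (w j).1) j, mem μ m0 (fun j => (w j).1) j) := by
      intro j
      induction j with
      | zero => rfl
      | succ j ih =>
        change δ' (run δ' (some (q0, m0)) w j) (w j) = _
        rw [ih]
        simp only [δ', if_pos (hcons' j)]
        rfl
    have hpri : ∀ j, pri' (run δ' (some (q0, m0)) w j) =
        pri (run δ q0 (fun j => (w j).1) j) := by
      intro j
      rw [hrun]
    simp only [hpri]
    rw [← hQ]
    constructor
    · intro h
      exact h.resolve_left hcons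
    · intro h
      exact Or.inr h

variable (G : Game.{u} (S × M))

/-- `(v, m)` can be reached in `n` steps along edges whose labels are the run of the memory. -/
def reach : ℕ → G.V → M → Prop
  | 0, v, m => v = G.init ∧ m = m0
  | n + 1, v, m => ∃ v' m' c, reach n v' m' ∧ G.E v' (c, m') v ∧ m = μ m' c

def bad (v : G.V) (m : M) : Prop := ∃ c m' x, G.E v (c, m') x ∧ m' ≠ m

theorem reach_path (n : ℕ) : ∀ v m, reach m0 μ G n v m →
    ∃ (vs : ℕ → G.V) (ms : ℕ → M) (cs : ℕ → S), vs 0 = G.init ∧ ms 0 = m0 ∧ vs n = v ∧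
      ms n = m ∧ ∀ i < n, G.E (vs i) (cs i, ms i) (vs (i + 1)) ∧ ms (i + 1) = μ (ms i) (cs i) := by
  classical
  induction n with
  | zero =>
    rintro v m ⟨rfl, rfl⟩
    obtain ⟨c, _, _⟩ := G.total G.init
    exact ⟨fun _ => G.init, fun _ => m, fun _ => c.1, rfl, rfl, rfl, rfl, fun i hi => by omega⟩
  | succ n ih =>
    rintro v m ⟨v', m', c, hr, hE, hm⟩
    obtain ⟨vs, ms, cs, h0, h1, h2, h3, h4⟩ := ih v' m' hr
    refine ⟨fun i => if i ≤ n then vs i else v, fun i => if i ≤ n then ms i else m,
      fun i => if i < n then cs i else c, by simpa using h0, by simpa using h1, by simp, by simp,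
      ?_⟩
    intro i hi
    rcases Nat.lt_or_ge i n with hin | hin
    · have e1 : i ≤ n := by omega
      have e2 : i + 1 ≤ n := by omega
      simp only [e1, e2, hin, if_true]
      exact h4 i hin
    · have e0 : i = n := by omega
      subst e0
      simp only [le_refl, if_true, lt_irrefl, if_false, show ¬ (i + 1 ≤ i) by omega]
      rw [h2, h3]
      exact ⟨hE, hm⟩

theorem not_bad_label {v : G.V} {m : M} (h : ¬ bad G v m) {c : S} {m' : M} {x : G.V}
    (hE : G.E v (c, m') x) : m' = m := by
  by_contra hne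
  exact h ⟨c, m', x, hE, hne⟩

theorem WM_positional (hS : Suffices OnePlayer.{u} W m0 μ) :
    Positional OnePlayer.{u} (WM W m0 μ) := by
  classical
  intro G hG hwin
  choose tc tx hT using G.total
  by_cases hbad : ∃ n v m, reach m0 μ G n v m ∧ bad G v m
  · -- a shortest path to a position where the labels can be made inconsistent
    obtain ⟨v, m, hr, hb⟩ := Nat.find_spec hbad
    set ℓ := Nat.find hbad with hℓ
    have hmin : ∀ n < ℓ, ∀ v m, reach m0 μ G n v m → ¬ bad G v m := by
      intro n hn v m h1 h2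
      exact Nat.find_min hbad hn ⟨v, m, h1, h2⟩
    obtain ⟨vs, ms, cs, h0, h1, h2, h3, h4⟩ := reach_path m0 μ G ℓ v m hr
    have hreach : ∀ i ≤ ℓ, reach m0 μ G i (vs i) (ms i) := by
      intro i
      induction i with
      | zero => intro _; exact ⟨h0, h1⟩
      | succ i ih =>
        intro hi
        exact ⟨vs i, ms i, cs i, ih (by omega), (h4 i (by omega)).1, (h4 i (by omega)).2⟩
    have hlab : ∀ i < ℓ, ∀ c m' x, G.E (vs i) (c, m') x → m' = ms i := by
      intro i hi c m' x hE
      exact not_bad_label G (hmin i hi _ _ (hreach i hi.le)) hE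
    have hinj : ∀ s t, s < t → t < ℓ → vs s ≠ vs t := by
      intro s t hst htl heq
      have hms : ms s = ms t := by
        obtain ⟨⟨c, m'⟩, x, hE⟩ := G.total (vs s)
        have e1 := hlab s (by omega) c m' x hE
        have e2 := hlab t htl c m' x (by rw [← heq]; exact hE)
        rw [← e1, e2]
      have hshift : ∀ j, t + j ≤ ℓ → reach m0 μ G (s + j) (vs (t + j)) (ms (t + j)) := by
        intro j
        induction j with
        | zero =>
          intro _
          have := hreach s (by omega)
          rw [heq, hms] at this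
          exact this
        | succ j ih =>
          intro hj
          exact ⟨vs (t + j), ms (t + j), cs (t + j), ih (by omega), (h4 (t + j) (by omega)).1,
            (h4 (t + j) (by omega)).2⟩
      have h5 := hshift (ℓ - t) (by omega)
      have e : t + (ℓ - t) = ℓ := by omega
      rw [e, h2, h3] at h5
      exact hmin (s + (ℓ - t)) (by omega) v m h5 hb
    obtain ⟨bc, bm, bx, hbE, hbne⟩ := hb
    let f : G.V → Unit → (S × M) × G.V := fun y _ =>
      if h : ∃ t, t < ℓ ∧ vs t = y then ((cs h.choose, ms h.choose), vs (h.choose + 1))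
      else if y = v then ((bc, bm), bx) else (tc y, tx y)
    have hf1 : ∀ t < ℓ, f (vs t) () = ((cs t, ms t), vs (t + 1)) := by
      intro t ht
      have hex : ∃ t', t' < ℓ ∧ vs t' = vs t := ⟨t, ht, rfl⟩
      have hch : hex.choose = t := by
        rcases lt_trichotomy hex.choose t with h | h | h
        · exact absurd hex.choose_spec.2 (hinj _ _ h ht)
        · exact h
        · exact absurd hex.choose_spec.2.symm (hinj _ _ h hex.choose_spec.1)
      simp only [f, dif_pos hex, hch]
    refine ⟨f, ?_, ?_⟩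
    · intro y _ _
      simp only [f]
      split_ifs with h5 h6
      · have h6 := h5.choose_spec
        have h7 := (h4 _ h6.1).1
        rw [h6.2] at h7
        exact h7
      · rw [h6]; exact hbE
      · exact hT y
    · intro p w hp hc
      left
      have hfollow : ∀ i ≤ ℓ, p i = vs i ∧ mem μ m0 (fun j => (w j).1) i = ms i := by
        intro i
        induction i with
        | zero => intro _; exact ⟨hp.start.trans h0.symm, h1.symm⟩
        | succ i ih =>
          intro hi
          obtain ⟨e1, e2⟩ := ih (by omega)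
          have h5 : (w i, p (i + 1)) = f (p i) () := hc i (hG _)
          rw [e1, hf1 i (by omega)] at h5
          refine ⟨congrArg Prod.snd h5, ?_⟩
          change μ (mem μ m0 (fun j => (w j).1) i) (w i).1 = _
          rw [e2, (h4 i (by omega)).2]
          have : w i = (cs i, ms i) := congrArg Prod.fst h5
          rw [this]
      obtain ⟨e1, e2⟩ := hfollow ℓ le_rfl
      refine ⟨ℓ, ?_⟩
      rw [e2, h3]
      have h5 : (w ℓ, p (ℓ + 1)) = f (p ℓ) () := hc ℓ (hG _)
      rw [e1] at h5
      by_cases h6 : ∃ t, t < ℓ ∧ vs t = vs ℓ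
      · obtain ⟨t, ht, htv⟩ := h6
        rw [← htv, hf1 t ht] at h5
        have h7 : w ℓ = (cs t, ms t) := congrArg Prod.fst h5
        rw [h7]
        have h8 := hlab t ht bc bm bx (by rw [htv, h2]; exact hbE)
        rw [← h8]
        exact hbne
      · simp only [f, dif_neg h6, if_pos h2] at h5
        have h7 : w ℓ = (bc, bm) := congrArg Prod.fst h5
        rw [h7]
        exact hbne
  · -- no inconsistent path: the labels of the edges are the memory states
    have hnb : ∀ n v m, reach m0 μ G n v m → ¬ bad G v m := by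
      intro n v m h1 h2
      exact hbad ⟨n, v, m, h1, h2⟩
    have hplayr : ∀ (p : ℕ → G.V) (w : ℕ → S × M), IsPlay G p w → ∀ i,
        reach m0 μ G i (p i) (mem μ m0 (fun j => (w j).1) i) ∧
          (w i).2 = mem μ m0 (fun j => (w j).1) i := by
      intro p w hp
      have key : ∀ i, reach m0 μ G i (p i) (mem μ m0 (fun j => (w j).1) i) →
          (w i).2 = mem μ m0 (fun j => (w j).1) i := by
        intro i hi
        exact not_bad_label G (hnb _ _ _ hi) (c := (w i).1) (m' := (w i).2) (x := p (i + 1))
          (hp.step i)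
      intro i
      induction i with
      | zero => exact ⟨⟨hp.start, rfl⟩, key 0 ⟨hp.start, rfl⟩⟩
      | succ i ih =>
        have h5 : reach m0 μ G (i + 1) (p (i + 1)) (mem μ m0 (fun j => (w j).1) (i + 1)) := by
          refine ⟨p i, mem μ m0 (fun j => (w j).1) i, (w i).1, ih.1, ?_, rfl⟩
          have h6 := hp.step i
          have h7 : w i = ((w i).1, mem μ m0 (fun j => (w j).1) i) := Prod.ext rfl ih.2
          rw [h7] at h6
          exact h6
        exact ⟨h5, key _ h5⟩
    let G' : Game.{u} S :=
      { V := G.V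
        E := fun y c x => ∃ m, G.E y (c, m) x
        eve := fun _ => True
        init := G.init
        total := fun y => ⟨(tc y).1, tx y, (tc y).2, hT y⟩ }
    have hG' : OnePlayer G' := fun _ => trivial
    obtain ⟨p0, w0, hp0, hw0⟩ := exists_play hG hwin
    have hw0' : (fun j => (w0 j).1) ∈ W := by
      rcases hw0 with ⟨i, hi⟩ | h
      · exact absurd (hplayr p0 w0 hp0 i).2 hi
      · exact h
    have hwin' : EveWins G' W :=
      eveWins_of_play hG' (p0 := p0) (w0 := fun j => (w0 j).1)
        ⟨hp0.start, fun i => ⟨(w0 i).2, hp0.step i⟩⟩ hw0'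
    obtain ⟨f, hf1, hf2⟩ := hS G' hG' hwin'
    let R : G.V → M → Prop := fun y m => ∃ n, reach m0 μ G n y m
    have hRu : ∀ y m m', R y m → R y m' → m = m' := by
      rintro y m m' ⟨n, hn⟩ ⟨n', hn'⟩
      have e1 := not_bad_label G (hnb _ _ _ hn) (c := (tc y).1) (m' := (tc y).2) (x := tx y) (hT y)
      have e2 := not_bad_label G (hnb _ _ _ hn') (c := (tc y).1) (m' := (tc y).2) (x := tx y) (hT y)
      rw [← e1, e2]
    let g : G.V → Unit → (S × M) × G.V := fun y _ =>
      if h : ∃ m, R y m then (((f y h.choose).1, h.choose), (f y h.choose).2) else (tc y, tx y)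
    refine ⟨g, ?_, ?_⟩
    · intro y _ _
      simp only [g]
      split_ifs with h5
      · obtain ⟨m', hm'⟩ := hf1 y h5.choose trivial
        obtain ⟨n, hn⟩ := h5.choose_spec
        have e1 := not_bad_label G (hnb _ _ _ hn) hm'
        rw [e1] at hm'
        exact hm'
      · exact hT y
    · intro p w hp hc
      right
      have hpr := hplayr p w hp
      refine hf2 p (fun j => (w j).1) ⟨hp.start, fun i => ⟨(w i).2, hp.step i⟩⟩ ?_
      intro i _
      have h5 : (w i, p (i + 1)) = g (p i) () := hc i (hG _)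
      have hex : ∃ m, R (p i) m := ⟨_, i, (hpr i).1⟩
      have hch : hex.choose = mem μ m0 (fun j => (w j).1) i :=
        hRu _ _ _ hex.choose_spec ⟨i, (hpr i).1⟩
      simp only [g, dif_pos hex, hch] at h5
      have e1 : w i = ((f (p i) (mem μ m0 (fun j => (w j).1) i)).1, _) := congrArg Prod.fst h5
      have e2 : p (i + 1) = (f (p i) (mem μ m0 (fun j => (w j).1) i)).2 := congrArg Prod.snd h5
      refine Prod.ext ?_ e2
      change (w i).1 = _
      rw [e1]

/-- The product of a game with the memory structure. -/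
def prodGame (G : Game.{u} S) : Game.{u} (S × M) where
  V := G.V × M
  E y c x := G.E y.1 c.1 x.1 ∧ c.2 = y.2 ∧ x.2 = μ y.2 c.1
  eve y := G.eve y.1
  init := (G.init, m0)
  total y := by
    obtain ⟨c, x, h⟩ := G.total y.1
    exact ⟨(c, y.2), (x, μ y.2 c), h, rfl, rfl⟩

theorem prod_wins (G : Game.{u} S) (h : EveWins G W) :
    EveWins (prodGame m0 μ G) (WM W m0 μ) := by
  obtain ⟨σ, h1, h2⟩ := h
  let tr : List ((G.V × M) × (S × M)) → List (G.V × S) := fun l =>
    l.map fun e => (e.1.1, e.2.1)
  refine ⟨fun l y => (((σ (tr l) y.1).1, y.2), ((σ (tr l) y.1).2, μ y.2 (σ (tr l) y.1).1)),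
    fun l y hy => ⟨h1 _ _ hy, rfl, rfl⟩, ?_⟩
  intro p w hp hc
  right
  refine h2 (fun i => (p i).1) (fun i => (w i).1)
    ⟨congrArg Prod.fst hp.start, fun i => (hp.step i).1⟩ ?_
  intro i hi
  have h5 := hc i hi
  have h6 : tr (hist p w i) = hist (fun i => (p i).1) (fun i => (w i).1) i := by
    simp [tr, hist, List.map_map, Function.comp_def]
  have e1 : (w i).1 = (σ (tr (hist p w i)) (p i).1).1 := congrArg (fun z => z.1.1) h5
  have e2 : (p (i + 1)).1 = (σ (tr (hist p w i)) (p i).1).2 := congrArg (fun z => z.2.1) h5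
  rw [h6] at e1 e2
  exact Prod.ext e1 e2

theorem of_prod (G : Game.{u} S)
    (h : WinsWith (prodGame m0 μ G) (WM W m0 μ) () (fun _ _ => ())) : WinsWith G W m0 μ := by
  obtain ⟨f, h1, h2⟩ := h
  refine ⟨fun v m => ((f (v, m) ()).1.1, (f (v, m) ()).2.1), fun v m hv => (h1 (v, m) () hv).1, ?_⟩
  intro p w hp hc
  have h3 := h2 (fun i => (p i, mem μ m0 w i)) (fun i => (w i, mem μ m0 w i))
    ⟨Prod.ext hp.start rfl, fun i => ⟨hp.step i, rfl, rfl⟩⟩ (by
      intro i hi
      have h5 := hc i hi
      have h6 := h1 (p i, mem μ m0 w i) () hi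
      have e1 : w i = (f (p i, mem μ m0 w i) ()).1.1 := congrArg Prod.fst h5
      have e2 : p (i + 1) = (f (p i, mem μ m0 w i) ()).2.1 := congrArg Prod.snd h5
      refine Prod.ext (Prod.ext e1 h6.2.1.symm) (Prod.ext e2 ?_)
      change μ (mem μ m0 w i) (w i) = _
      rw [e1]
      exact h6.2.2.symm)
  rcases h3 with ⟨i, hi⟩ | h3
  · exact absurd rfl hi
  · exact h3

end Lift

/-- The reduction of the statement for a fixed memory structure to the positional case. -/
theorem lift_of_positionalLift (hlift : PositionalLift.{u}) (S : Type) [Finite S]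
    (W : Set (ℕ → S)) (hW : OmegaRegular W) (M : Type) [Finite M] (m0 : M) (μ : M → S → M)
    (h : Suffices OnePlayer.{u} W m0 μ) : Suffices Arbitrary.{u} W m0 μ := by
  intro G _ hG
  exact of_prod W m0 μ G
    (hlift (S × M) (WM W m0 μ) (WM_omegaRegular W m0 μ hW) (WM_positional W m0 μ h) _ trivial
      (prod_wins W m0 μ G hG))

/-- **Main theorem.**

* Q1: there is an ω-regular objective whose chromatic memory is `k` over one-player games and
  `k' > k` over arbitrary games.
* More precisely, for every `n ≥ 2` the ω-regular objective `W n` (two different letters among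
  `1, ..., n` occur infinitely often, with a neutral letter `0`) has chromatic memory exactly
  `2` over one-player games and exactly `n` over arbitrary games.
* If instead one memory structure is fixed for all games of the class, the answer is negative,
  given the known case of one memory state (`PositionalLift`): a finite memory structure that is
  sufficient over one-player games for an ω-regular objective is sufficient over all games. -/
theorem result :
    (∃ (S : Type) (_ : Finite S) (W : Set (ℕ → S)) (k k' : ℕ), OmegaRegular W ∧ k < k' ∧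
      IsChromaticMemory OnePlayer.{u} W k ∧ IsChromaticMemory Arbitrary.{u} W k') ∧
    (∀ n : ℕ, 2 ≤ n → OmegaRegular (W n) ∧ IsChromaticMemory OnePlayer.{u} (W n) 2 ∧
      IsChromaticMemory Arbitrary.{u} (W n) n) ∧
    (PositionalLift.{u} → ∀ (S : Type) [Finite S] (W : Set (ℕ → S)), OmegaRegular W →
      ∀ (M : Type) [Finite M] (m0 : M) (μ : M → S → M),
        Suffices OnePlayer.{u} W m0 μ → Suffices Arbitrary.{u} W m0 μ) := by
  refine ⟨⟨Fin 4, inferInstance, W 3, 2, 3, W_omegaRegular (by omega), by omega,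
    memory_one (by omega), memory_two (by omega)⟩,
    fun n hn => ⟨W_omegaRegular (by omega), memory_one hn, memory_two hn⟩, ?_⟩
  intro hlift S _ W hW M _ m0 μ h
  exact lift_of_positionalLift hlift S W hW M m0 μ h

end Pool.Agent.Results.MP_369bda_lc.ChromaticGap
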